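import Mathlib
import Pool.Agent.Q33.Tri.Basic

/-!
# MP_bba144_nt — divisibility of weighted sums of squared generalized trinomial coefficients
Both questions are answered in the affirmative.
-/

namespace Pool.Agent.Results.MP_bba144_nt.SquaredTrinomialSum

open Finset Pool.Agent.Q33.Tri

/-- the generalized central trinomial coefficient `T_m(b,c)`, by the explicit formula of the
problem file -/
def Tri (b c : ℤ) (m : ℕ) : ℤ :=
  ∑ j ∈ range (m / 2 + 1), (m.choose (2 * j) : ℤ) * ((2 * j).choose j : ℤ) * b ^ (m - 2 * j) * c ^ j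

theorem Tri_eq (b c : ℤ) (m : ℕ) : Tri b c m = T b c m := rfl

theorem factor (b c : ℤ) (hb : b ≠ 0) (hc : c ≠ 0) (n : ℕ) (hn : 1 ≤ n) :
    ∃ U V : ℤ, T b (c ^ 2) (n - 1) * T b (c ^ 2) n = b * V ∧
      L b c n = n * (2 * n * c * U ^ 2 + (b + 2 * c) * V) := by
  obtain ⟨R1, h1⟩ := T_mod b (c ^ 2) (n - 1)
  obtain ⟨R2, h2⟩ := T_mod b (c ^ 2) n
  have hU : (b + 2 * c) * T b (c ^ 2) (n - 1) - T b (c ^ 2) n
      = 2 * c * (b ^ (n - 1) + c * (b + 2 * c) * R1 - c * R2) := by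
    rw [h1, h2]
    have : b ^ n = b ^ (n - 1) * b := by
      rw [← pow_succ, Nat.sub_add_cancel hn]
    rw [this]
    ring
  have hV : ∃ V, T b (c ^ 2) (n - 1) * T b (c ^ 2) n = b * V := by
    rcases Nat.even_or_odd n with he | ho
    · have : (n - 1) % 2 = 1 := by
        obtain ⟨m, rfl⟩ := he
        omega
      exact (dvd_T_of_odd b (c ^ 2) this).mul_right _
    · have : n % 2 = 1 := Nat.odd_iff.1 ho
      exact (dvd_T_of_odd b (c ^ 2) this).mul_left _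
  obtain ⟨V, hV⟩ := hV
  refine ⟨b ^ (n - 1) + c * (b + 2 * c) * R1 - c * R2, V, hV, ?_⟩
  have key := L_closed b c n
  have h2bc : (2 * b * c : ℤ) ≠ 0 := by
    have : (2 : ℤ) ≠ 0 := by norm_num
    exact mul_ne_zero (mul_ne_zero this hb) hc
  apply mul_left_cancel₀ h2bc
  rw [key, hU]
  linear_combination (n : ℤ) * 2 * c * (b + 2 * c) * hV

theorem L_congr {m b b' c c' : ℤ} (hb : b ≡ b' [ZMOD m]) (hc : c ≡ c' [ZMOD m]) (n : ℕ) :
    L b c n ≡ L b' c' n [ZMOD m] := by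
  unfold L
  apply Int.ModEq.sum
  intro j _
  refine Int.ModEq.mul (Int.ModEq.mul ?_ ((T_congr hb (hc.pow 2) j).pow 2)) ?_
  · exact (((hc.mul_left 8).mul_right _).add (hc.mul_left 4)).add hb
  · exact (hb.sub (hc.mul_left 2)).pow _

theorem dvd_L (b c : ℤ) (n : ℕ) (hn : 1 ≤ n) : (n : ℤ) ∣ L b c n := by
  have hn0 : (n : ℤ) ≠ 0 := by exact_mod_cast (by omega : n ≠ 0)
  obtain ⟨b', hb', hbb⟩ : ∃ b' : ℤ, b' ≠ 0 ∧ b ≡ b' [ZMOD n] := by
    by_cases h : b = 0
    · refine ⟨n, hn0, ?_⟩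
      rw [h, Int.modEq_iff_dvd]
      simp
    · exact ⟨b, h, Int.ModEq.refl _⟩
  obtain ⟨c', hc', hcc⟩ : ∃ c' : ℤ, c' ≠ 0 ∧ c ≡ c' [ZMOD n] := by
    by_cases h : c = 0
    · refine ⟨n, hn0, ?_⟩
      rw [h, Int.modEq_iff_dvd]
      simp
    · exact ⟨c, h, Int.ModEq.refl _⟩
  obtain ⟨U, V, -, h⟩ := factor b' c' hb' hc' n hn
  have h1 := L_congr hbb hcc n
  have h2 : (n : ℤ) ∣ L b' c' n := ⟨_, h⟩
  exact (Int.ModEq.dvd_iff h1).2 h2

section prime

variable {p : ℕ} [hp : Fact p.Prime]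

theorem t_pred (hp2 : p ≠ 2) (j : ℕ) (hj : j ≤ p / 2) :
    ((t (p - 1) j : ℤ) : ZMod p) = (-4) ^ j * (((p / 2).choose j : ℕ) : ZMod p) := by
  have hodd : p % 2 = 1 := by
    rcases hp.1.eq_two_or_odd with h | h
    · exact absurd h hp2
    · exact h
  have hp1 : 1 ≤ p := hp.1.one_lt.le
  induction j with
  | zero => simp
  | succ j ih =>
    have ih' := ih (by omega)
    have hr := t_right (p - 1) j
    have hr' := congrArg (Int.cast : ℤ → ZMod p) hr
    push_cast [Nat.cast_sub hp1] at hr'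
    have hc := Nat.choose_succ_right_eq (p / 2) j
    have hc' := congrArg (Nat.cast : ℕ → ZMod p) hc
    push_cast [Nat.cast_sub (show j ≤ p / 2 by omega)] at hc'
    have h2 : (2 : ZMod p) * ((p / 2 : ℕ) : ZMod p) = -1 := by
      have : (2 * (p / 2) + 1 : ℕ) = p := by omega
      have h3 : ((2 * (p / 2) + 1 : ℕ) : ZMod p) = (p : ZMod p) := by rw [this]
      push_cast at h3
      rw [CharP.cast_eq_zero (ZMod p) p] at h3
      linear_combination h3
    have hj0 : ((j : ZMod p) + 1) ≠ 0 := by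
      have : ((j + 1 : ℕ) : ZMod p) ≠ 0 := by
        rw [Ne, ZMod.natCast_eq_zero_iff]
        intro hd
        have := Nat.le_of_dvd (by omega) hd
        omega
      exact_mod_cast this
    apply mul_left_cancel₀ (pow_ne_zero 2 hj0)
    rw [hr', ih']
    rw [CharP.cast_eq_zero (ZMod p) p]
    rw [pow_succ]
    linear_combination (-4) ^ j * (4 : ZMod p) * ((j : ZMod p) + 1) * hc'
      + (-4) ^ j * (((p / 2).choose j : ℕ) : ZMod p) * (2 : ZMod p) * ((j : ZMod p) + 1) * h2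

theorem T_pred (hp2 : p ≠ 2) (b c : ℤ) :
    ((T b c (p - 1) : ℤ) : ZMod p) = ((b : ZMod p) ^ 2 - 4 * c) ^ (p / 2) := by
  have hodd : p % 2 = 1 := by
    rcases hp.1.eq_two_or_odd with h | h
    · exact absurd h hp2
    · exact h
  have h1 : (p - 1) / 2 = p / 2 := by omega
  unfold T
  rw [h1]
  push_cast
  rw [show (b : ZMod p) ^ 2 - 4 * c = (-4 * (c : ZMod p)) + (b : ZMod p) ^ 2 by ring, add_pow]
  refine Finset.sum_congr rfl fun j hj => ?_
  rw [Finset.mem_range] at hj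
  rw [t_pred hp2 j (by omega), mul_pow, ← pow_mul, show 2 * (p / 2 - j) = p - 1 - 2 * j by omega]
  ring

theorem T_self (hp2 : p ≠ 2) (b c : ℤ) : ((T b c p : ℤ) : ZMod p) = (b : ZMod p) := by
  unfold T
  rw [Finset.sum_range_succ']
  push_cast
  rw [Finset.sum_eq_zero, t_zero]
  · simp [ZMod.pow_card]
  · intro j hj
    rw [Finset.mem_range] at hj
    have hodd : p % 2 = 1 := by
      rcases hp.1.eq_two_or_odd with h | h
      · exact absurd h hp2
      · exact h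
    have : ((t p (j + 1) : ℤ) : ZMod p) = 0 := by
      unfold t
      push_cast
      have h : ((p.choose (2 * (j + 1)) : ℕ) : ZMod p) = 0 := by
        rw [ZMod.natCast_eq_zero_iff]
        exact hp.1.dvd_choose_self (by omega) (by omega)
      rw [h]
      simp
    rw [this]
    simp

end prime

theorem L_zero_right (b : ℤ) (n : ℕ) (hn : 1 ≤ n) : L b 0 n = n * b ^ (2 * n - 1) := by
  have hT : ∀ j, T b ((0 : ℤ) ^ 2) j = b ^ j := by
    intro j
    unfold T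
    rw [Finset.sum_range_succ']
    rw [Finset.sum_eq_zero]
    · simp
    · intro k _
      simp
  unfold L
  rw [Finset.sum_congr rfl (g := fun _ => b ^ (2 * n - 1))]
  · simp
  · intro j hj
    rw [Finset.mem_range] at hj
    rw [hT, ← pow_mul]
    simp only [mul_zero, zero_mul, sub_zero, zero_add]
    rw [← pow_succ', ← pow_add]
    congr 1
    omega

/-- the key congruence -/
theorem L_prime {p : ℕ} (hp : p.Prime) (hp2 : p ≠ 2) (b c : ℤ) (hb : ¬ (p : ℤ) ∣ b)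
    (hD : ¬ (p : ℤ) ∣ (b - 2 * c)) :
    ((p : ℤ) ^ 2) ∣ L b c p - p * (b + 2 * c) * (@legendreSym p ⟨hp⟩ (b ^ 2 - 4 * c ^ 2))
      * (b - 2 * c) ^ (2 * (p - 1)) := by
  have : Fact p.Prime := ⟨hp⟩
  have hp1 : 1 ≤ p := hp.one_lt.le
  have hb0 : b ≠ 0 := by
    rintro rfl
    exact hb (dvd_zero _)
  have hbz : (b : ZMod p) ≠ 0 := by
    rw [Ne, ZMod.intCast_zmod_eq_zero_iff_dvd]
    exact hb
  by_cases hc : c = 0
  · subst hc
    have h1 : legendreSym p (b ^ 2 - 4 * 0 ^ 2) = 1 := by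
      have : (b ^ 2 - 4 * 0 ^ 2 : ℤ) = b ^ 2 := by ring
      rw [this]
      exact legendreSym.sq_one' p hbz
    rw [h1, L_zero_right b p hp1]
    have : (p : ℤ) * b ^ (2 * p - 1) - p * (b + 2 * 0) * 1 * (b - 2 * 0) ^ (2 * (p - 1)) = 0 := by
      have e : 2 * p - 1 = 2 * (p - 1) + 1 := by omega
      rw [e, pow_succ]
      ring
    rw [this]
    exact dvd_zero _
  · obtain ⟨U, V, hV, hL⟩ := factor b c hb0 hc p hp1
    have hVz : (V : ZMod p) = ((legendreSym p (b ^ 2 - 4 * c ^ 2) : ℤ) : ZMod p) := by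
      have h := congrArg (Int.cast : ℤ → ZMod p) hV
      push_cast at h
      rw [T_pred hp2, T_self hp2] at h
      rw [legendreSym.eq_pow]
      push_cast
      push_cast at h
      apply mul_left_cancel₀ hbz
      rw [← h]
      ring
    have hpow : ((b - 2 * c : ℤ) : ZMod p) ^ (2 * (p - 1)) = 1 := by
      have hDz : ((b - 2 * c : ℤ) : ZMod p) ≠ 0 := by
        rw [Ne, ZMod.intCast_zmod_eq_zero_iff_dvd]
        exact hD
      rw [mul_comm 2 (p - 1), pow_mul, ZMod.pow_card_sub_one_eq_one hDz, one_pow]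
    have hdvd : (p : ℤ) ∣ (2 * p * c * U ^ 2 + (b + 2 * c) * V)
        - (b + 2 * c) * (legendreSym p (b ^ 2 - 4 * c ^ 2)) * (b - 2 * c) ^ (2 * (p - 1)) := by
      rw [← ZMod.intCast_zmod_eq_zero_iff_dvd]
      push_cast
      rw [hVz, CharP.cast_eq_zero (ZMod p) p]
      have := hpow
      push_cast at this
      rw [this]
      ring
    obtain ⟨w, hw⟩ := hdvd
    refine ⟨w, ?_⟩
    rw [hL]
    linear_combination (p : ℤ) * hw

/-- **Q1 and Q2 (Sun), both in the affirmative.**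
For all integers `b, c` and `n ≥ 1`, `n` divides
`∑_{j<n} (8cj+4c+b) T_j(b,c²)² (b-2c)^{2(n-1-j)}`; and for every odd prime `p` not dividing
`b(b-2c)`,
`∑_{j<p} (8cj+4c+b) T_j(b,c²)²/(b-2c)^{2j} ≡ p (b+2c) ((b²-4c²)/p)  (mod p²)`
as a congruence in the localisation of `ℤ` at `p`. -/
theorem result :
    (∀ (b c : ℤ) (n : ℕ), 1 ≤ n →
      (n : ℤ) ∣ ∑ j ∈ range n, (8 * c * j + 4 * c + b) * Tri b (c ^ 2) j ^ 2
        * (b - 2 * c) ^ (2 * (n - 1 - j))) ∧
    (∀ (b c : ℤ) (p : ℕ) [Fact p.Prime], p ≠ 2 → ¬ (p : ℤ) ∣ b * (b - 2 * c) →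
      ∃ u v : ℤ, ¬ (p : ℤ) ∣ v ∧
        (∑ j ∈ range p, ((8 * c * j + 4 * c + b : ℤ) : ℚ) * ((Tri b (c ^ 2) j : ℤ) : ℚ) ^ 2
            / ((b - 2 * c : ℤ) : ℚ) ^ (2 * j))
          - (p : ℚ) * ((b + 2 * c : ℤ) : ℚ) * (legendreSym p (b ^ 2 - 4 * c ^ 2) : ℚ)
          = (p : ℚ) ^ 2 * ((u : ℚ) / v)) := by
  refine ⟨fun b c n hn => dvd_L b c n hn, ?_⟩
  intro b c p hp hp2 hbd
  have hb : ¬ (p : ℤ) ∣ b := fun h => hbd (h.mul_right _)
  have hD : ¬ (p : ℤ) ∣ (b - 2 * c) := fun h => hbd (h.mul_left _)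
  obtain ⟨w, hw⟩ := L_prime hp.1 hp2 b c hb hD
  have hD0 : ((b - 2 * c : ℤ) : ℚ) ≠ 0 := by
    intro h
    have : (b - 2 * c : ℤ) = 0 := by exact_mod_cast h
    rw [this] at hD
    exact hD (dvd_zero _)
  refine ⟨w, (b - 2 * c) ^ (2 * (p - 1)), ?_, ?_⟩
  · intro h
    exact hD (Int.Prime.dvd_pow' hp.1 h)
  · have hs : (∑ j ∈ range p, ((8 * c * j + 4 * c + b : ℤ) : ℚ) * ((Tri b (c ^ 2) j : ℤ) : ℚ) ^ 2
            / ((b - 2 * c : ℤ) : ℚ) ^ (2 * j)) = (L b c p : ℚ) / ((b - 2 * c : ℤ) : ℚ) ^ (2 * (p - 1)) := by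
      unfold L
      rw [Int.cast_sum, Finset.sum_div]
      refine Finset.sum_congr rfl fun j hj => ?_
      rw [Finset.mem_range] at hj
      have e : 2 * (p - 1) = 2 * (p - 1 - j) + 2 * j := by omega
      rw [e, pow_add, Tri_eq]
      have h1 := pow_ne_zero (2 * (p - 1 - j)) hD0
      have h2 := pow_ne_zero (2 * j) hD0
      rw [Int.cast_mul, Int.cast_mul, Int.cast_pow, Int.cast_pow]
      field_simp
    rw [hs]
    have hw' := congrArg (Int.cast : ℤ → ℚ) hw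
    rw [Int.cast_sub, Int.cast_mul, Int.cast_mul, Int.cast_mul, Int.cast_mul, Int.cast_pow,
      Int.cast_pow, Int.cast_natCast] at hw'
    have h1 := pow_ne_zero (2 * (p - 1)) hD0
    rw [Int.cast_pow]
    field_simp
    linear_combination hw'

end Pool.Agent.Results.MP_bba144_nt.SquaredTrinomialSum
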